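import Pool.Agent.H.MP_ef0d97_co.Main

set_option autoImplicit false

namespace Pool.Agent.Results.MP_ef0d97_co.Cubic

/-- The Hamilton cycle `π 0, π 1, ..., π (n-1), π 0` is (2,2)-acceptable for `F`. -/
def Acceptable {n : ℕ} (F : Finset (Finset (Fin n))) (π : Equiv.Perm (Fin n)) : Prop :=
  ∀ i j : Fin n,
    Disjoint ({π i, π (finRotate n i)} : Finset (Fin n)) {π j, π (finRotate n j)} →
      ({π i, π (finRotate n i)} : Finset (Fin n)) ∪ {π j, π (finRotate n j)} ∉ F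

/-- `F` is a vertex-transitive family of 4-sets admitting no acceptable Hamilton cycle. -/
def Blocking {n : ℕ} (F : Finset (Finset (Fin n))) : Prop :=
  (∀ S ∈ F, S.card = 4) ∧
  (∀ x y : Fin n, ∃ σ : Equiv.Perm (Fin n), F.image (fun S => S.image σ) = F ∧ σ x = y) ∧
  ∀ π, ¬ Acceptable F π

theorem result : ∃ c : ℝ, 0 < c ∧ ∃ N : ℕ, ∀ n ≥ N,
    (∀ F : Finset (Finset (Fin n)), Blocking F → c * n ^ 3 ≤ F.card) ∧
    ∃ F : Finset (Finset (Fin n)), Blocking F ∧ F.card ≤ n ^ 3 := by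
  refine ⟨1 / 2 ^ 25, by positivity, 2 ^ 23, fun n hn => ⟨fun F hF => ?_, ?_⟩⟩
  · by_contra hc
    have h1 : F.card * 2 ^ 25 ≤ n ^ 3 := by
      have : ((F.card * 2 ^ 25 : ℕ) : ℝ) ≤ (n ^ 3 : ℕ) := by push_cast; linarith
      exact_mod_cast this
    obtain ⟨π, hπ⟩ := H.MP_ef0d97_co.main n (n / 2 ^ 22) (by omega) (Nat.mul_div_le _ _) F hF.1 (by
      intro u
      have h2 := H.MP_ef0d97_co.deg_le F hF.1 hF.2.1 u
      have h3 : n ≤ 2 ^ 23 * (n / 2 ^ 22) := by omega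
      have h4 := Nat.mul_le_mul_left (n * n) h3
      apply Nat.le_of_mul_le_mul_left (c := n * 2 ^ 23) _ (by positivity)
      nlinarith)
    exact hF.2.2 π fun i j _ => hπ i j
  · obtain ⟨m, rfl⟩ : ∃ m, n = m + 4 := ⟨n - 4, by omega⟩
    refine ⟨H.MP_ef0d97_co.fam _, ⟨fun S hS => (Finset.mem_filter.1 hS).2.1,
      H.MP_ef0d97_co.fam_trans (m + 3), fun π h => ?_⟩, H.MP_ef0d97_co.fam_card _⟩
    obtain ⟨i, j, h1, h2⟩ := H.MP_ef0d97_co.fam_block m π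
    exact h i j h1 h2

end Pool.Agent.Results.MP_ef0d97_co.Cubic
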